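import Pool.Agent.R761.BW.Real
import Pool.Agent.H976R3.Kiss.Jam

/-!
# The kissing configurations of the Barnes-Wall lattices are jammed
-/

set_option autoImplicit false

namespace Pool.Agent.Results.MP_389516_gt.Jammed

open Pool.Agent.R761.BW (Mn Cg Good Flex Rig th mulI bw good_bw rig_bw flex_of_ineq)

section general

variable {E : Type*} [NormedAddCommGroup E] [InnerProductSpace ℝ E]

/-- The minimal angle of a configuration: the infimum of the angles between two distinct points. -/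
noncomputable def minAngle (C : Set E) : ℝ :=
  sInf {α | ∃ x ∈ C, ∃ y ∈ C, x ≠ y ∧ α = InnerProductGeometry.angle x y}

/-- A motion of the configuration `C`: a continuous path `γ x : [0,1] → S` of unit vectors for
every point `x` of `C`, starting at `x`, such that at all times the inner product of (the positions
of) two distinct points is at most the cosine of the minimal angle of `C`. -/
def IsMotion (C : Set E) (γ : C → unitInterval → E) : Prop :=
  (∀ x, Continuous (γ x)) ∧ (∀ x, γ x 0 = (x : E)) ∧ (∀ x t, ‖γ x t‖ = 1) ∧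
  ∀ x y, x ≠ y → ∀ t, inner ℝ (γ x t) (γ y t) ≤ Real.cos (minAngle C)

/-- A motion is trivial if at all times it is given by an orthogonal transformation. -/
def IsTrivial (C : Set E) (γ : C → unitInterval → E) : Prop :=
  ∃ g : unitInterval → (E ≃ₗᵢ[ℝ] E), ∀ x t, γ x t = g t (x : E)

/-- A configuration is jammed if all its motions are trivial. -/
def IsJammed (C : Set E) : Prop := ∀ γ : C → unitInterval → E, IsMotion C γ → IsTrivial C γ

/-- The nonzero vectors of minimal norm of `L`. -/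
def minimalVectors (L : Set E) : Set E := {x | x ∈ L ∧ x ≠ 0 ∧ ∀ y ∈ L, y ≠ 0 → ‖x‖ ≤ ‖y‖}

/-- The kissing configuration of `L`: its nonzero vectors of minimal norm, rescaled to unit
length. -/
noncomputable def kissing (L : Set E) : Set E := (fun x => ‖x‖⁻¹ • x) '' minimalVectors L

end general

/-- The matrix `M`. -/
def M : Matrix (Fin 2) (Fin 2) ℂ := !![1, 1; 0, 1 + Complex.I]

/-- The Kronecker power `M^{⊗ n}`, rows and columns being indexed by the words of length `n` in
`{0, 1}`; see `kroneckerPower_succ`. -/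
def kroneckerPower (n : ℕ) : Matrix (Fin n → Fin 2) (Fin n → Fin 2) ℂ :=
  fun r c => ∏ j, M (r j) (c j)

/-- `M^{⊗ (n+1)} = M ⊗ M^{⊗ n}`, under the identification of the words of length `n + 1` with the
pairs consisting of a letter and a word of length `n`. -/
theorem kroneckerPower_succ (n : ℕ) : kroneckerPower (n + 1) =
    Matrix.reindex (Fin.consEquiv fun _ => Fin 2) (Fin.consEquiv fun _ => Fin 2)
      (Matrix.kroneckerMap (fun a b => a * b) M (kroneckerPower n)) := by
  ext r c
  rw [Matrix.reindex_apply, Matrix.submatrix_apply, Matrix.kroneckerMap_apply]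
  unfold kroneckerPower
  rw [Fin.prod_univ_succ]
  rfl

/-- The Barnes-Wall lattice in `ℂ^(2^(k-1))`, of real dimension `2^k`: the set of the
combinations of the rows of `M^{⊗ (k-1)}` with Gaussian integer coefficients. -/
def BW (k : ℕ) : Set (EuclideanSpace ℂ (Fin (k - 1) → Fin 2)) :=
  {x | ∃ z : (Fin (k - 1) → Fin 2) → GaussianInt,
    x = ∑ r, (z r : ℂ) • WithLp.toLp 2 (kroneckerPower (k - 1) r)}

theorem mem_BW (k : ℕ) (x : EuclideanSpace ℂ (Fin (k - 1) → Fin 2)) :
    x ∈ BW k ↔ x ∈ bw (k - 1) := Iff.rfl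

section general

variable {E : Type} [NormedAddCommGroup E] [InnerProductSpace ℝ E]

theorem cos_minAngle {C : Set E} (hC : ∀ x ∈ C, ‖x‖ = 1) {c : ℝ} {x0 y0 : E} (hx0 : x0 ∈ C)
    (hy0 : y0 ∈ C) (hne : x0 ≠ y0) (h0 : inner ℝ x0 y0 = c)
    (h : ∀ x ∈ C, ∀ y ∈ C, x ≠ y → inner ℝ x y ≤ c) : Real.cos (minAngle C) = c := by
  have hleast : IsLeast {α | ∃ x ∈ C, ∃ y ∈ C, x ≠ y ∧ α = InnerProductGeometry.angle x y}
      (InnerProductGeometry.angle x0 y0) := by
    refine ⟨⟨x0, hx0, y0, hy0, hne, rfl⟩, ?_⟩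
    rintro α ⟨x, hx, y, hy, hxy, rfl⟩
    unfold InnerProductGeometry.angle
    rw [hC x hx, hC y hy, hC x0 hx0, hC y0 hy0]
    apply Real.arccos_le_arccos
    rw [h0]
    simpa using h x hx y hy hxy
  unfold minAngle
  rw [hleast.csInf_eq, InnerProductGeometry.cos_angle, hC x0 hx0, hC y0 hy0, h0]
  simp

variable {J : E →ₗ[ℝ] E} {L : AddSubgroup E} {μ : ℝ}

theorem norm_mn {x : E} (h : Mn L μ x) : ‖x‖ = Real.sqrt μ := by
  rw [← h.2, real_inner_self_eq_norm_sq, Real.sqrt_sq (norm_nonneg _)]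

theorem minimalVectors_eq (G : Good J L μ) : minimalVectors (L : Set E) = {x | Mn L μ x} := by
  ext x
  constructor
  · rintro ⟨hx, hx0, hmin⟩
    obtain ⟨u, hu⟩ := G.ne
    have h1 := hmin u hu.1 (G.mn_ne hu)
    have h2 := G.min x hx hx0
    have h3 : inner ℝ x x ≤ μ := by
      rw [← hu.2, real_inner_self_eq_norm_sq, real_inner_self_eq_norm_sq]
      exact pow_le_pow_left₀ (norm_nonneg _) h1 2
    exact ⟨hx, le_antisymm h3 h2⟩
  · intro hx
    refine ⟨hx.1, G.mn_ne hx, fun y hy hy0 => ?_⟩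
    rw [norm_mn hx]
    refine Real.sqrt_le_iff.mpr ⟨norm_nonneg _, ?_⟩
    rw [← real_inner_self_eq_norm_sq]
    exact G.min y hy hy0

theorem kissing_eq (G : Good J L μ) :
    kissing (L : Set E) = (fun x => (Real.sqrt μ)⁻¹ • x) '' {x | Mn L μ x} := by
  unfold kissing
  rw [minimalVectors_eq G]
  refine Set.image_congr fun x hx => ?_
  rw [norm_mn hx]

theorem jammed_of (G : Good J L μ) [FiniteDimensional ℝ E] {c : ℝ} {x0 y0 : E}
    (hx0 : Mn L μ x0) (hy0 : Mn L μ y0) (hne : x0 ≠ y0) (h0 : inner ℝ x0 y0 = c * μ)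
    (h : ∀ x y, Mn L μ x → Mn L μ y → x ≠ y → inner ℝ x y ≤ c * μ)
    (hrig : ∀ a : E → E, (∀ x, Mn L μ x → inner ℝ (a x) x = 0) →
      (∀ x y, Mn L μ x → Mn L μ y → inner ℝ x y = c * μ → inner ℝ (a x) y + inner ℝ (a y) x ≤ 0) →
      ∃ A : E →ₗ[ℝ] E, (∀ x y, inner ℝ (A x) y = - inner ℝ x (A y)) ∧ ∀ x, Mn L μ x → a x = A x) :
    (kissing (L : Set E)).Finite ∧ IsJammed (kissing (L : Set E)) := by
  classical
  have hμ := G.pos
  have hs : 0 < Real.sqrt μ := Real.sqrt_pos.mpr hμ
  have hss : Real.sqrt μ * Real.sqrt μ = μ := Real.mul_self_sqrt hμ.le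
  have hinner : ∀ x y : E, inner ℝ ((Real.sqrt μ)⁻¹ • x) ((Real.sqrt μ)⁻¹ • y) =
      inner ℝ x y / μ := by
    intro x y
    rw [inner_smul_left, inner_smul_right, conj_trivial, ← mul_assoc, ← mul_inv, hss,
      div_eq_inv_mul]
  have hfin : (kissing (L : Set E)).Finite := by
    rw [kissing_eq G]; exact G.fin.image _
  refine ⟨hfin, ?_⟩
  set C := kissing (L : Set E) with hC
  have hmemC : ∀ x, Mn L μ x → (Real.sqrt μ)⁻¹ • x ∈ C := by
    intro x hx
    rw [hC, kissing_eq G]
    exact ⟨x, hx, rfl⟩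
  have hCmem : ∀ y ∈ C, ∃ x, Mn L μ x ∧ y = (Real.sqrt μ)⁻¹ • x := by
    intro y hy
    rw [hC, kissing_eq G] at hy
    obtain ⟨x, hx, rfl⟩ := hy
    exact ⟨x, hx, rfl⟩
  have hnorm : ∀ x ∈ C, ‖x‖ = 1 := by
    intro y hy
    obtain ⟨x, hx, rfl⟩ := hCmem y hy
    rw [norm_smul, norm_mn hx, norm_inv, Real.norm_of_nonneg hs.le, inv_mul_cancel₀ hs.ne']
  have hinj : ∀ x y : E, (Real.sqrt μ)⁻¹ • x = (Real.sqrt μ)⁻¹ • y → x = y := by
    intro x y hxy
    exact smul_right_injective E (inv_ne_zero hs.ne') hxy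
  have hcos : Real.cos (minAngle C) = c := by
    refine cos_minAngle hnorm (hmemC x0 hx0) (hmemC y0 hy0) (fun h => hne (hinj _ _ h)) ?_ ?_
    · rw [hinner, h0, mul_div_assoc, div_self hμ.ne', mul_one]
    · intro x' hx' y' hy' hxy
      obtain ⟨x, hx, rfl⟩ := hCmem x' hx'
      obtain ⟨y, hy, rfl⟩ := hCmem y' hy'
      rw [hinner, div_le_iff₀ hμ]
      exact h x y hx hy (fun h => hxy (by rw [h]))
  have : Fintype C := hfin.fintype
  have hinf : Pool.Agent.H976R3.Kiss.InfJammed (fun x : C => (x : E)) c := by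
    intro v hv1 hv2
    set a : E → E := fun x => if hx : Mn L μ x then v ⟨(Real.sqrt μ)⁻¹ • x, hmemC x hx⟩ else 0
      with ha
    have ha' : ∀ x (hx : Mn L μ x), a x = v ⟨(Real.sqrt μ)⁻¹ • x, hmemC x hx⟩ := by
      intro x hx
      rw [ha]; simp only [dif_pos hx]
    have hsc : ∀ x (hx : Mn L μ x) (z : E), inner ℝ z x =
        Real.sqrt μ * inner ℝ (((⟨(Real.sqrt μ)⁻¹ • x, hmemC x hx⟩ : C) : E)) z := by
      intro x hx z
      simp only
      rw [inner_smul_left, conj_trivial, ← mul_assoc, mul_inv_cancel₀ hs.ne', one_mul,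
        real_inner_comm]
    obtain ⟨A, hA1, hA2⟩ := hrig a
      (fun x hx => by rw [ha' x hx, hsc x hx, hv1, mul_zero])
      (fun x y hx hy hxy => by
        rcases eq_or_ne x y with rfl | hne'
        · have : inner ℝ (a x) x = 0 := by rw [ha' x hx, hsc x hx, hv1, mul_zero]
          rw [this]; simp
        have h3 := hv2 ⟨(Real.sqrt μ)⁻¹ • x, hmemC x hx⟩ ⟨(Real.sqrt μ)⁻¹ • y, hmemC y hy⟩
          (fun h => hne' (hinj _ _ (congrArg Subtype.val h)))
          (by
            simp only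
            rw [hinner, hxy, mul_div_assoc, div_self hμ.ne', mul_one])
        rw [ha' x hx, ha' y hy, hsc x hx, hsc y hy]
        nlinarith)
    have hAc : ∀ x, (LinearMap.toContinuousLinearMap ((Real.sqrt μ) • A)) x =
        (Real.sqrt μ) • A x := fun x => rfl
    refine ⟨LinearMap.toContinuousLinearMap ((Real.sqrt μ) • A), ?_, ?_⟩
    · intro u w
      rw [hAc, hAc, inner_smul_left, inner_smul_right, conj_trivial, hA1]
      ring
    · rintro ⟨y, hy⟩
      obtain ⟨x, hx, rfl⟩ := hCmem y hy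
      rw [hAc]
      simp only
      rw [map_smul, smul_smul, mul_inv_cancel₀ hs.ne', one_smul, ← hA2 x hx, ha' x hx]
  intro γ hγ
  obtain ⟨hγ1, hγ2, hγ3, hγ4⟩ := hγ
  rw [hcos] at hγ4
  have key := Pool.Agent.H976R3.Kiss.jammed_of_infJammed (fun x : C => (x : E)) c
    (fun x => hnorm x x.2) hinf γ hγ1 hγ2 hγ3 hγ4
  choose g hg using key
  exact ⟨g, fun x t => hg t x⟩

end general

/-- The real dimension of the ambient space is `2^k`. -/
theorem finrank_ambient (k : ℕ) (hk : 1 ≤ k) :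
    Module.finrank ℝ (EuclideanSpace ℂ (Fin (k - 1) → Fin 2)) = 2 ^ k := by
  obtain ⟨n, rfl⟩ : ∃ n, k = n + 1 := ⟨k - 1, by omega⟩
  rw [← Module.finrank_mul_finrank ℝ ℂ, Complex.finrank_real_complex, finrank_euclideanSpace]
  simp [pow_succ, mul_comm]

/-- The kissing configuration of the Barnes-Wall lattice of dimension `2^k` is a (finite) jammed
spherical code, for all `k ≥ 1`. -/
theorem result (k : ℕ) (hk : 1 ≤ k) : (kissing (BW k)).Finite ∧ IsJammed (kissing (BW k)) := by
  obtain ⟨n, rfl⟩ : ∃ n, k = n + 1 := ⟨k - 1, by omega⟩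
  have hfd : FiniteDimensional ℝ (EuclideanSpace ℂ (Fin n → Fin 2)) := by
    exact Module.Finite.trans ℂ _
  have G := good_bw n
  have hBW : BW (n + 1) = (bw n : Set (EuclideanSpace ℂ (Fin n → Fin 2))) := rfl
  rw [hBW]
  cases n with
  | zero =>
    rw [pow_zero] at G
    obtain ⟨u, hu⟩ := G.ne
    refine jammed_of G (c := 0) hu (G.mn_J hu) ?_ ?_ ?_ ?_
    · intro h
      have h1 := G.inner_J_self u
      rw [← h, hu.2] at h1
      exact one_ne_zero h1
    · rw [G.inner_J_self]; ring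
    · intro x y hx hy hxy
      rw [zero_mul]
      have hc : Cg (mulI 0) (bw 0) x y := by
        rcases Pool.Agent.R761.BW.mn0_all hx hy with rfl | rfl | rfl | rfl
        · exact absurd rfl hxy
        · exact G.cg_J hx.1
        · exact G.cg_neg hx.1
        · exact G.cg_negJ hx.1
      rcases G.orth hx hy hc with rfl | rfl | h
      · exact absurd rfl hxy
      · rw [inner_neg_right, hx.2]; norm_num
      · exact h.le
    · intro a h0 h1
      have hp : ∀ v, Mn (bw 0) 1 v → ∃ t : ℝ, a v = t • mulI 0 v := by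
        intro v hv
        obtain ⟨s, t, hst⟩ := Pool.Agent.R761.BW.coords0 v hv (a v)
        have h2 := h0 v hv
        rw [hst, inner_add_left, inner_smul_left, inner_smul_left, conj_trivial, conj_trivial,
          G.inner_J_self', hv.2] at h2
        refine ⟨t, ?_⟩
        rw [hst]
        have h3 : s = 0 := by linarith
        rw [h3]; module
      have hle : ∀ v (s t : ℝ), Mn (bw 0) 1 v → a v = s • mulI 0 v →
          a (mulI 0 v) = t • mulI 0 (mulI 0 v) → s ≤ t := by
        intro v s t hv hs ht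
        have h2 := h1 v (mulI 0 v) hv (G.mn_J hv) (by rw [G.inner_J_self]; ring)
        rw [hs, ht, G.JJ] at h2
        simp only [inner_smul_left, inner_neg_left, conj_trivial, G.Ji, hv.2] at h2
        linarith
      obtain ⟨t0, ht0⟩ := hp u hu
      obtain ⟨t1, ht1⟩ := hp _ (G.mn_J hu)
      obtain ⟨t2, ht2⟩ := hp _ (G.mn_J (G.mn_J hu))
      obtain ⟨t3, ht3⟩ := hp _ (G.mn_J (G.mn_J (G.mn_J hu)))
      have l0 := hle _ _ _ hu ht0 ht1
      have l1 := hle _ _ _ (G.mn_J hu) ht1 ht2
      have l2 := hle _ _ _ (G.mn_J (G.mn_J hu)) ht2 ht3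
      have hJ4 : mulI 0 (mulI 0 (mulI 0 (mulI 0 u))) = u := by
        rw [G.JJ (mulI 0 (mulI 0 u)), G.JJ u, neg_neg]
      have l3 := hle _ t3 t0 (G.mn_J (G.mn_J (G.mn_J hu))) ht3 (by
        rw [hJ4]; exact ht0)
      refine ⟨t0 • mulI 0, ?_, ?_⟩
      · intro x y
        simp only [LinearMap.smul_apply, inner_smul_left, inner_smul_right, conj_trivial]
        rw [G.inner_J]; ring
      · intro v hv
        rw [LinearMap.smul_apply]
        rcases Pool.Agent.R761.BW.mn0_all hu hv with rfl | rfl | rfl | rfl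
        · exact ht0
        · have : t1 = t0 := by linarith
          rw [ht1, this]
        · have : t2 = t0 := by linarith
          rw [← G.JJ, ht2, this]
        · have : t3 = t0 := by linarith
          rw [← G.JJ (mulI 0 u), ht3, this]
  | succ n =>
    obtain ⟨u, hu⟩ := (good_bw n).ne
    have G0 := good_bw n
    have D := Pool.Agent.R761.BW.dbl_bw n
    have hx0 := D.mn_mk hu hu (G0.cg_refl u)
    have hy0 := D.mn_mk hu (G0.mn_J hu) (G0.cg_J hu.1)
    rw [← pow_succ'] at hx0 hy0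
    refine jammed_of G (c := 1 / 2) hx0 hy0 ?_ ?_ ?_ ?_
    · intro h
      have h1 := hx0.2
      nth_rw 2 [h] at h1
      rw [D.mk_inner, hu.2, G0.inner_J_self, add_zero, pow_succ] at h1
      have : (0 : ℝ) < 2 ^ n := by positivity
      linarith
    · rw [D.mk_inner, hu.2, G0.inner_J_self, add_zero, pow_succ]; ring
    · intro x y hx hy hxy
      have h1 := G.min (x - y) ((bw (n + 1)).sub_mem hx.1 hy.1) (sub_ne_zero.mpr hxy)
      rw [inner_sub_left, inner_sub_right, inner_sub_right, hx.2, hy.2, real_inner_comm x y] at h1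
      linarith
    · intro a h0 h1
      exact rig_bw n a (flex_of_ineq G a h0 fun x y hx hy hxy => h1 x y hx hy (by
        rw [hxy]; ring))

end Pool.Agent.Results.MP_389516_gt.Jammed
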